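import Pool.Agent.H52.V.S8.H323R2.NT2
import Pool.Agent.H52.V.S8.H393R2.DC.Digits

/-!
Digit relations of arbitrary real algebraic irrationals with exponent 2.
-/

set_option autoImplicit false

namespace Pool.Agent.W44

open Finset Filter Topology
open Pool.Agent.H393R2.DC (Dn dlt floor_step)
open Pool.Agent.H393R2.DC (digit)

lemma absorb2 (c : ℝ) (hc : 0 < c) : ∃ c' : ℝ, 0 < c' ∧ ∃ N1 : ℕ, ∀ N : ℕ, N1 ≤ N → ∀ m : ℝ,
    c * (Real.log N) ^ 2 / (Real.log (Real.log N)) ^ 3 ≤ m + 1 →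
    c' * (Real.log N) ^ 2 / (Real.log (Real.log N)) ^ 3 ≤ m := by
  have h1 : Tendsto (fun x : ℝ => (Real.log x) ^ 3 / x) atTop (𝓝 0) := by
    have := isLittleO_log_rpow_atTop (show (0 : ℝ) < 1 / 3 by norm_num)
    have h2 := this.tendsto_div_nhds_zero
    have h3 := h2.pow 3
    rw [zero_pow (by norm_num)] at h3
    refine h3.congr' ?_
    filter_upwards [eventually_gt_atTop (0 : ℝ)] with x hx
    rw [div_pow, ← Real.rpow_natCast (x ^ (1 / 3 : ℝ)) 3, ← Real.rpow_mul hx.le]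
    norm_num
  have h2 : ∀ᶠ x : ℝ in atTop, 2 / c ≤ x ^ 2 / (Real.log x) ^ 3 := by
    have h3 := h1.eventually_le_const (show (0 : ℝ) < c / 2 by positivity)
    filter_upwards [h3, eventually_ge_atTop (1 : ℝ),
      Real.tendsto_log_atTop.eventually_ge_atTop 1] with x hx hx1 hx2
    have hx0 : 0 < x := by linarith
    have hl : 0 < (Real.log x) ^ 3 := by positivity
    rw [div_le_iff₀ hx0] at hx
    rw [div_le_div_iff₀ hc hl]
    have h5 : x ≤ x ^ 2 := by
      calc x = x ^ 1 := (pow_one x).symm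
        _ ≤ x ^ 2 := pow_le_pow_right₀ hx1 (by norm_num)
    nlinarith
  have h3 := (Real.tendsto_log_atTop.comp (tendsto_natCast_atTop_atTop (R := ℝ))).eventually h2
  obtain ⟨N1, hN1⟩ := eventually_atTop.1 h3
  refine ⟨c / 2, by positivity, N1, fun N hN m hm => ?_⟩
  have h4 := hN1 N hN
  simp only [Function.comp] at h4
  rw [div_le_iff₀ hc] at h4
  have e1 : c * (Real.log N) ^ 2 / (Real.log (Real.log N)) ^ 3 =
    (Real.log N) ^ 2 / (Real.log (Real.log N)) ^ 3 * c := by ring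
  have e2 : c / 2 * (Real.log N) ^ 2 / (Real.log (Real.log N)) ^ 3 =
    (Real.log N) ^ 2 / (Real.log (Real.log N)) ^ 3 * c / 2 := by ring
  rw [e1] at hm
  rw [e2]
  linarith

/-- a nonzero integer multiple of a real algebraic irrational is the root of a monic irreducible
integer polynomial of degree at least 2 -/
lemma exists_monic (x : ℝ) (halg : IsAlgebraic ℚ x) (hirr : Irrational x) :
    ∃ T : ℤ, T ≠ 0 ∧ ∃ f : Polynomial ℤ, f.Monic ∧ Irreducible f ∧ 2 ≤ f.natDegree ∧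
      (f.map (Int.castRingHom ℝ)).eval (T * x) = 0 := by
  have halg' : IsAlgebraic ℤ x := (IsFractionRing.isAlgebraic_iff ℤ ℚ ℝ).2 halg
  obtain ⟨T, hT, hint⟩ := halg'.exists_integral_multiple
  rw [zsmul_eq_mul] at hint
  refine ⟨T, hT, minpoly ℤ ((T : ℝ) * x), minpoly.monic hint, minpoly.irreducible hint, ?_, ?_⟩
  · by_contra hlt
    have hpos := minpoly.natDegree_pos hint
    have h1 : (minpoly ℤ ((T : ℝ) * x)).natDegree = 1 := by omega
    have hm := minpoly.monic hint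
    have h0 := minpoly.aeval ℤ ((T : ℝ) * x)
    have h2 : minpoly ℤ ((T : ℝ) * x) = Polynomial.X + Polynomial.C ((minpoly ℤ ((T : ℝ) * x)).coeff 0) := by
      rw [← Polynomial.Monic.eq_X_add_C hm h1]
    rw [h2] at h0
    simp only [map_add, Polynomial.aeval_X, Polynomial.aeval_C] at h0
    have h3 : Irrational ((T : ℝ) * x) := hirr.intCast_mul hT
    apply h3
    refine ⟨-((minpoly ℤ ((T : ℝ) * x)).coeff 0 : ℚ), ?_⟩
    push_cast
    have h4 : (T : ℝ) * x + ((minpoly ℤ ((T : ℝ) * x)).coeff 0 : ℝ) = 0 := h0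
    linarith
  · have h0 := minpoly.aeval ℤ ((T : ℝ) * x)
    rw [Polynomial.eval_map]
    exact h0

theorem main_alg (x : ℝ) (halg : IsAlgebraic ℚ x) (hirr : Irrational x) (b : ℕ) (hb : 2 ≤ b)
    (T : ℤ) (hT : T ≠ 0) (C0 : ℝ) (Y : ℕ → ℤ)
    (hY : ∀ K, |(Y K : ℝ) - (b : ℝ) ^ K * (T * x)| ≤ C0) :
    ∃ c : ℝ, 0 < c ∧ ∃ N0 : ℕ, ∀ N : ℕ, N0 ≤ N →
      c * (Real.log N) ^ 2 / (Real.log (Real.log N)) ^ 3 ≤ ((Dn b Y N).card : ℝ) := by
  have halg1 : IsAlgebraic ℚ ((T : ℝ) * x) := by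
    have h1 : IsAlgebraic ℚ ((T : ℝ)) := isAlgebraic_intCast (R := ℚ) (A := ℝ) T
    exact h1.mul halg
  have hirr1 : Irrational ((T : ℝ) * x) := hirr.intCast_mul hT
  obtain ⟨S, hS, f, hm, hfi, hd, hroot⟩ := exists_monic _ halg1 hirr1
  set U : ℕ → ℤ := fun n => S * Y n with hU
  have hUa : ∀ n, |(U n : ℝ) - (b : ℝ) ^ n * (S * (T * x))| ≤ |(S : ℝ)| * C0 := by
    intro n
    have e : (U n : ℝ) - (b : ℝ) ^ n * (S * (T * x)) = S * ((Y n : ℝ) - (b : ℝ) ^ n * (T * x)) := by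
      simp only [hU]; push_cast; ring
    rw [e, abs_mul]
    exact mul_le_mul_of_nonneg_left (hY n) (by positivity)
  obtain ⟨c, hc, N0, hN0⟩ := Pool.Agent.H323R2.Gen.main_gen f hm f.natDegree rfl hd b hb _ _ hroot
    U hUa (Pool.Agent.H323R2.NT.supply f hm hfi hd b (by omega))
  obtain ⟨c', hc', N1, hN1⟩ := absorb2 c hc
  refine ⟨c', hc', max N0 N1, fun N hN => ?_⟩
  refine hN1 N (le_trans (le_max_right _ _) hN) _ ((hN0 N (le_trans (le_max_left _ _) hN)).trans ?_)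
  have hsub : Dn b U N ⊆ insert 0 (Dn b Y N) := by
    intro k hk
    unfold Dn at hk
    rw [Finset.mem_filter] at hk
    rw [Finset.mem_insert]
    cases k with
    | zero => exact Or.inl rfl
    | succ k =>
      right
      unfold Dn
      rw [Finset.mem_filter]
      refine ⟨hk.1, fun h => hk.2 ?_⟩
      simp only [dlt, hU] at h ⊢
      have h1 : Y (k + 1) = b * Y k := by linarith
      rw [h1]
      ring
  have h1 := (Finset.card_le_card hsub).trans (Finset.card_insert_le _ _)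
  exact_mod_cast h1

/-- expansions with bounded integer digits -/
theorem expansions (x : ℝ) (halg : IsAlgebraic ℚ x) (hirr : Irrational x) (b : ℕ) (hb : 2 ≤ b)
    (g : ℕ → ℤ) (M : ℤ) (hg : ∀ k, |g k| ≤ M)
    (hsum : HasSum (fun k : ℕ => (g k : ℝ) / (b : ℝ) ^ k) x) :
    ∃ c : ℝ, 0 < c ∧ ∃ N0 : ℕ, ∀ N : ℕ, N0 ≤ N →
      c * (Real.log N) ^ 2 / (Real.log (Real.log N)) ^ 3 ≤
        (((Icc 1 N).filter (fun k => g k ≠ 0)).card : ℝ) := by
  have hb2 : (2 : ℝ) ≤ b := by exact_mod_cast hb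
  have hb0 : (0 : ℝ) < b := by linarith
  set W : ℕ → ℤ := fun n => ∑ k ∈ range (n + 1), g k * (b : ℤ) ^ (n - k) with hW
  have hWs : ∀ n, W (n + 1) = b * W n + g (n + 1) := by
    intro n
    simp only [hW]
    rw [Finset.sum_range_succ, Finset.mul_sum]
    congr 1
    · apply Finset.sum_congr rfl
      intro k hk
      have : k ≤ n := Nat.lt_succ_iff.1 (Finset.mem_range.1 hk)
      rw [show n + 1 - k = (n - k) + 1 by omega, pow_succ]; ring
    · simp
  have hWa : ∀ n, |(W n : ℝ) - (b : ℝ) ^ n * (((1 : ℤ) : ℝ) * x)| ≤ M := by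
    intro n
    rw [Int.cast_one, one_mul]
    have h1 := (hasSum_nat_add_iff' (n + 1)).2 hsum
    have h2 := h1.mul_left ((b : ℝ) ^ n)
    have h3 : (b : ℝ) ^ n * (x - ∑ i ∈ range (n + 1), (g i : ℝ) / (b : ℝ) ^ i) =
        (b : ℝ) ^ n * x - W n := by
      rw [mul_sub]
      congr 1
      simp only [hW]
      push_cast
      rw [Finset.mul_sum]
      apply Finset.sum_congr rfl
      intro k hk
      have hk' : k ≤ n := Nat.lt_succ_iff.1 (Finset.mem_range.1 hk)
      have e : (b : ℝ) ^ n = (b : ℝ) ^ (n - k) * (b : ℝ) ^ k := by rw [← pow_add]; congr 1; omega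
      rw [e]
      have : (b : ℝ) ^ k ≠ 0 := by positivity
      field_simp
    rw [h3] at h2
    have h4 := HasSum.norm_le_of_bounded h2 (hasSum_geometric_two' (M : ℝ)) (by
      intro k
      have hgk : |(g (k + (n + 1)) : ℝ)| ≤ M := by exact_mod_cast hg (k + (n + 1))
      have hM0 : (0 : ℝ) ≤ M := (abs_nonneg _).trans hgk
      have e : (b : ℝ) ^ n * ((g (k + (n + 1)) : ℝ) / (b : ℝ) ^ (k + (n + 1))) =
          (g (k + (n + 1)) : ℝ) / (b : ℝ) ^ (k + 1) := by
        rw [show k + (n + 1) = n + (k + 1) by ring, pow_add]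
        field_simp
      rw [e, Real.norm_eq_abs, abs_div, abs_of_pos (show (0 : ℝ) < (b : ℝ) ^ (k + 1) by positivity),
        div_div]
      apply div_le_div₀ hM0 hgk (by positivity)
      rw [← pow_succ']
      exact pow_le_pow_left₀ (by norm_num) hb2 _)
    rw [Real.norm_eq_abs, abs_sub_comm] at h4
    exact h4
  obtain ⟨c, hc, N0, hN0⟩ := main_alg x halg hirr b hb 1 one_ne_zero M W hWa
  obtain ⟨c', hc', N1, hN1⟩ := absorb2 c hc
  refine ⟨c', hc', max N0 N1, fun N hN => ?_⟩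
  refine hN1 N (le_trans (le_max_right _ _) hN) _ ((hN0 N (le_trans (le_max_left _ _) hN)).trans ?_)
  have hsub : Dn b W N ⊆ insert 0 ((Icc 1 N).filter (fun k => g k ≠ 0)) := by
    intro k hk
    unfold Dn at hk
    rw [Finset.mem_filter, Finset.mem_range] at hk
    rw [Finset.mem_insert, Finset.mem_filter, Finset.mem_Icc]
    cases k with
    | zero => exact Or.inl rfl
    | succ k =>
      right
      refine ⟨⟨by omega, by omega⟩, fun h => hk.2 ?_⟩
      simp only [dlt]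
      rw [hWs k, h]
      ring
  have h1 := Finset.card_le_card hsub
  have h2 := Finset.card_insert_le 0 ((Icc 1 N).filter (fun k => g k ≠ 0))
  have h3 : (Dn b W N).card ≤ ((Icc 1 N).filter (fun k => g k ≠ 0)).card + 1 := h1.trans h2
  exact_mod_cast h3

/-- linear relations between consecutive digit columns of a tuple -/
theorem tuple_relations {n : ℕ} (α : Fin n → ℝ) (halg : ∀ i, IsAlgebraic ℚ (α i))
    (b : ℕ) (hb : 2 ≤ b) (m : ℕ) (q : Fin n → ℕ → ℤ) (e : ℤ)
    (hirr : Irrational (∑ i, ((∑ j ∈ range (m + 1), q i j * (b : ℤ) ^ j : ℤ) : ℝ) * α i)) :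
    ∃ c : ℝ, 0 < c ∧ ∃ N0 : ℕ, ∀ N : ℕ, N0 ≤ N →
      c * (Real.log N) ^ 2 / (Real.log (Real.log N)) ^ 3 ≤
        (((Icc 1 N).filter (fun k : ℕ =>
          ∑ i, ∑ j ∈ range (m + 1), q i j * digit b (α i) (k + j) ≠ e)).card : ℝ) := by
  set x : ℝ := ∑ i, ((∑ j ∈ range (m + 1), q i j * (b : ℤ) ^ j : ℤ) : ℝ) * α i with hx
  have hb0 : (0 : ℝ) < b := by positivity
  have hb2 : (2 : ℝ) ≤ b := by exact_mod_cast hb
  have hb1 : (0 : ℝ) ≤ (b : ℝ) - 1 := by linarith
  have hbZ : ((b : ℤ) - 1) ≠ 0 := by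
    have : (2 : ℤ) ≤ b := by exact_mod_cast hb
    omega
  have hxalg : IsAlgebraic ℚ x := by
    rw [hx]
    apply Subalgebra.algebraicClosure ℚ ℝ |>.sum_mem
    intro i _
    have h1 : IsAlgebraic ℚ (((∑ j ∈ range (m + 1), q i j * (b : ℤ) ^ j : ℤ)) : ℝ) :=
      isAlgebraic_intCast (R := ℚ) (A := ℝ) _
    exact h1.mul (halg i)
  set W : Fin n → ℕ → ℤ := fun i k => ⌊(b : ℝ) ^ k * α i⌋ with hW
  have hWs : ∀ i k, W i (k + 1) = b * W i k + digit b (α i) (k + 1) :=
    fun i k => floor_step b hb (α i) k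
  set Y : ℕ → ℤ := fun k => ((b : ℤ) - 1) * ∑ i, ∑ j ∈ range (m + 1), q i j * W i (k + j) + e
    with hY
  have hYs : ∀ k, Y (k + 1) - b * Y k =
      ((b : ℤ) - 1) * (∑ i, ∑ j ∈ range (m + 1), q i j * digit b (α i) (k + 1 + j) - e) := by
    intro k
    have h1 : ∑ i, ∑ j ∈ range (m + 1), q i j * W i (k + 1 + j) =
        b * ∑ i, ∑ j ∈ range (m + 1), q i j * W i (k + j) +
          ∑ i, ∑ j ∈ range (m + 1), q i j * digit b (α i) (k + 1 + j) := by
      rw [Finset.mul_sum, ← Finset.sum_add_distrib]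
      apply Finset.sum_congr rfl
      intro i _
      rw [Finset.mul_sum, ← Finset.sum_add_distrib]
      apply Finset.sum_congr rfl
      intro j _
      have e1 : k + 1 + j = k + j + 1 := by ring
      rw [e1, hWs i (k + j)]
      ring
    simp only [hY]
    rw [h1]
    ring
  set M : ℝ := ((b : ℝ) - 1) * ∑ i, ∑ j ∈ range (m + 1), |(q i j : ℝ)| + |(e : ℝ)| with hM
  have hYa : ∀ k, |(Y k : ℝ) - (b : ℝ) ^ k * ((((b : ℤ) - 1 : ℤ) : ℝ) * x)| ≤ M := by
    intro k
    have e1 : (Y k : ℝ) - (b : ℝ) ^ k * ((((b : ℤ) - 1 : ℤ) : ℝ) * x) =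
        ((b : ℝ) - 1) * ∑ i, ∑ j ∈ range (m + 1), (q i j : ℝ) *
          ((W i (k + j) : ℝ) - (b : ℝ) ^ (k + j) * α i) + e := by
      have e2 : ∑ i, ∑ j ∈ range (m + 1), (q i j : ℝ) *
          ((W i (k + j) : ℝ) - (b : ℝ) ^ (k + j) * α i) =
          ∑ i, ∑ j ∈ range (m + 1), (q i j : ℝ) * (W i (k + j) : ℝ) - (b : ℝ) ^ k * x := by
        rw [hx, Finset.mul_sum, ← Finset.sum_sub_distrib]
        apply Finset.sum_congr rfl
        intro i _
        push_cast
        rw [Finset.sum_mul, Finset.mul_sum, ← Finset.sum_sub_distrib]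
        apply Finset.sum_congr rfl
        intro j _
        rw [pow_add]; ring
      rw [e2]
      simp only [hY]
      push_cast
      ring
    rw [e1]
    refine (abs_add_le _ _).trans ?_
    rw [hM]
    apply add_le_add _ le_rfl
    rw [abs_mul, abs_of_nonneg hb1]
    apply mul_le_mul_of_nonneg_left _ hb1
    refine (Finset.abs_sum_le_sum_abs _ _).trans ?_
    apply Finset.sum_le_sum
    intro i _
    refine (Finset.abs_sum_le_sum_abs _ _).trans ?_
    apply Finset.sum_le_sum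
    intro j _
    rw [abs_mul]
    have h1 := Int.floor_le ((b : ℝ) ^ (k + j) * α i)
    have h2 := Int.lt_floor_add_one ((b : ℝ) ^ (k + j) * α i)
    have h3 : |(W i (k + j) : ℝ) - (b : ℝ) ^ (k + j) * α i| ≤ 1 := by
      rw [abs_le]
      simp only [hW]
      constructor <;> linarith
    calc |(q i j : ℝ)| * |(W i (k + j) : ℝ) - (b : ℝ) ^ (k + j) * α i| ≤ |(q i j : ℝ)| * 1 :=
          mul_le_mul_of_nonneg_left h3 (abs_nonneg _)
      _ = _ := mul_one _
  obtain ⟨c, hc, N0, hN0⟩ := main_alg x hxalg hirr b hb ((b : ℤ) - 1) hbZ M Y hYa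
  obtain ⟨c', hc', N1, hN1⟩ := absorb2 c hc
  refine ⟨c', hc', max N0 N1, fun N hN => ?_⟩
  refine hN1 N (le_trans (le_max_right _ _) hN) _ ((hN0 N (le_trans (le_max_left _ _) hN)).trans ?_)
  have hsub : Dn b Y N ⊆ insert 0 ((Icc 1 N).filter (fun k : ℕ =>
      ∑ i, ∑ j ∈ range (m + 1), q i j * digit b (α i) (k + j) ≠ e)) := by
    intro k hk
    unfold Dn at hk
    rw [Finset.mem_filter, Finset.mem_range] at hk
    rw [Finset.mem_insert, Finset.mem_filter, Finset.mem_Icc]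
    cases k with
    | zero => exact Or.inl rfl
    | succ k =>
      right
      refine ⟨⟨by omega, by omega⟩, fun h => hk.2 ?_⟩
      have h1 := hYs k
      rw [h, sub_self, mul_zero] at h1
      simp only [dlt]
      exact h1
  have h1 := Finset.card_le_card hsub
  have h2 := Finset.card_insert_le 0 ((Icc 1 N).filter (fun k : ℕ =>
    ∑ i, ∑ j ∈ range (m + 1), q i j * digit b (α i) (k + j) ≠ e))
  have h3 : (Dn b Y N).card ≤ ((Icc 1 N).filter (fun k : ℕ =>
    ∑ i, ∑ j ∈ range (m + 1), q i j * digit b (α i) (k + j) ≠ e)).card + 1 := h1.trans h2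
  exact_mod_cast h3

/-- linear relations between consecutive digits of one number -/
theorem digit_relations (x : ℝ) (halg : IsAlgebraic ℚ x) (hirr : Irrational x)
    (b : ℕ) (hb : 2 ≤ b)
    (m : ℕ) (q : ℕ → ℤ) (e : ℤ) (hqb : ∑ j ∈ range (m + 1), q j * (b : ℤ) ^ j ≠ 0) :
    ∃ c : ℝ, 0 < c ∧ ∃ N0 : ℕ, ∀ N : ℕ, N0 ≤ N →
      c * (Real.log N) ^ 2 / (Real.log (Real.log N)) ^ 3 ≤
        (((Icc 1 N).filter (fun k : ℕ =>
          ∑ j ∈ range (m + 1), q j * digit b x (k + j) ≠ e)).card : ℝ) := by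
  have h := tuple_relations (n := 1) (fun _ => x) (fun _ => halg) b hb m (fun _ => q) e
    (by simpa using hirr.intCast_mul hqb)
  simpa using h

end Pool.Agent.W44
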